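import Mathlib

/-!
Counting points of subgroups of `ℤ^q` in boxes.
-/

set_option autoImplicit false

namespace Pool.Agent.H30.Vino2

variable {q : ℕ}

/-- The integer vectors with all coordinates at most `R` in absolute value. -/
noncomputable def boxZ (q R : ℕ) : Finset (Fin q → ℤ) := Fintype.piFinset fun _ => Finset.Icc (-(R : ℤ)) R

lemma mem_boxZ {R : ℕ} {z : Fin q → ℤ} : z ∈ boxZ q R ↔ ∀ j, |z j| ≤ R := by
  unfold boxZ
  rw [Fintype.mem_piFinset]
  simp only [Finset.mem_Icc, abs_le]

/-- The number of points of a subgroup in a box. -/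
noncomputable def cnt (L : Submodule ℤ (Fin q → ℤ)) (R : ℕ) : ℕ :=
  open Classical in ((boxZ q R).filter fun z => z ∈ L).card

lemma cnt_mono {L L' : Submodule ℤ (Fin q → ℤ)} (h : L' ≤ L) (R : ℕ) : cnt L' R ≤ cnt L R := by
  classical
  unfold cnt
  apply Finset.card_le_card
  intro z hz
  rw [Finset.mem_filter] at hz ⊢
  exact ⟨hz.1, h hz.2⟩

lemma one_le_cnt (L : Submodule ℤ (Fin q → ℤ)) (R : ℕ) : 1 ≤ cnt L R := by
  classical
  unfold cnt
  rw [Nat.one_le_iff_ne_zero, ← Nat.pos_iff_ne_zero, Finset.card_pos]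
  refine ⟨0, ?_⟩
  rw [Finset.mem_filter, mem_boxZ]
  exact ⟨fun j => by simp, L.zero_mem⟩

lemma cnt_doubling (L : Submodule ℤ (Fin q → ℤ)) (K R : ℕ) :
    cnt L (K * R) ≤ (2 * K + 1) ^ q * cnt L R := by
  classical
  unfold cnt
  have h1 : ((boxZ q (K * R)).filter fun z => z ∈ L).card ≤
      ((boxZ q R).filter fun z => z ∈ L).card *
        (Fintype.piFinset fun _ : Fin q => Finset.Icc (-(K : ℤ)) K).card := by
    apply Finset.card_le_mul_card_image_of_maps_to (f := fun z j => z j / ((R : ℤ) + 1))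
    · intro z hz
      rw [Finset.mem_filter, mem_boxZ] at hz
      rw [Fintype.mem_piFinset]
      intro j
      have h2 := abs_le.1 (hz.1 j)
      push_cast at h2
      have hR : (0 : ℤ) < (R : ℤ) + 1 := by positivity
      rw [Finset.mem_Icc]
      constructor
      · apply (Int.le_ediv_iff_mul_le hR).2
        have : (0 : ℤ) ≤ K := by positivity
        linarith
      · apply Int.ediv_le_of_le_mul hR
        have : (0 : ℤ) ≤ K := by positivity
        linarith
    · intro b _
      rcases Finset.eq_empty_or_nonempty (((boxZ q (K * R)).filter fun z => z ∈ L).filter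
        fun z => (fun j => z j / ((R : ℤ) + 1)) = b) with h | ⟨z0, hz0⟩
      · rw [h]; simp
      · rw [Finset.mem_filter, Finset.mem_filter] at hz0
        apply Finset.card_le_card_of_injOn (fun z => z - z0)
        · intro z hz
          rw [Finset.mem_coe, Finset.mem_filter, Finset.mem_filter] at hz
          rw [Finset.mem_coe, Finset.mem_filter, mem_boxZ]
          refine ⟨?_, L.sub_mem hz.1.2 hz0.1.2⟩
          intro j
          have h3 := congrFun hz.2 j
          have h4 := congrFun hz0.2 j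
          have hR : (0 : ℤ) < (R : ℤ) + 1 := by positivity
          have h5 := Int.mul_ediv_add_emod (z j) ((R : ℤ) + 1)
          have h6 := Int.mul_ediv_add_emod (z0 j) ((R : ℤ) + 1)
          have h7 := Int.emod_nonneg (z j) hR.ne'
          have h8 := Int.emod_nonneg (z0 j) hR.ne'
          have h9 := Int.emod_lt_of_pos (z j) hR
          have h10 := Int.emod_lt_of_pos (z0 j) hR
          rw [h3] at h5
          rw [h4] at h6
          change |z j - z0 j| ≤ (R : ℤ)
          rw [abs_le]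
          constructor <;> linarith
        · intro z _ z' _ h
          exact sub_left_injective h
  refine h1.trans (le_of_eq ?_)
  rw [mul_comm]
  congr 1
  rw [Fintype.card_piFinset, Finset.prod_const, Finset.card_univ, Fintype.card_fin, Int.card_Icc]
  congr 1
  omega

lemma cnt_index {ν : ℕ} (L L' : Submodule ℤ (Fin q → ℤ)) (hle : L' ≤ L) (R I : ℕ)
    (z0 : Fin q → ℤ) (hz0 : z0 ∈ L) (b : Fin ν → (Fin q → ℤ)) (hb : ∀ k, b k ∈ L')
    (hbR : ∀ k, b k ∈ boxZ q R) (α : Fin ν → ℚ) (hα : ∀ j, (z0 j : ℚ) = ∑ k, α k * b k j)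
    (hI : ∀ c c' : ℕ, c < I → c' < I → ((c : ℤ) - c') • z0 ∈ L' → c = c') :
    I * cnt L' R ≤ cnt L ((ν + 1) * R) := by
  classical
  set r : ℕ → (Fin q → ℤ) := fun c => (c : ℤ) • z0 - ∑ k, ⌊(c : ℚ) * α k⌋ • b k with hr
  have hrL : ∀ c, r c ∈ L := fun c =>
    L.sub_mem (L.smul_mem _ hz0) (L.sum_mem fun k _ => L.smul_mem _ (hle (hb k)))
  have hrbox : ∀ c j, |r c j| ≤ (ν * R : ℕ) := by
    intro c j
    have h1 : ((r c j : ℤ) : ℚ) = ∑ k, Int.fract ((c : ℚ) * α k) * b k j := by
      simp only [hr, Pi.sub_apply, Pi.smul_apply, Finset.sum_apply, smul_eq_mul]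
      push_cast
      rw [hα j, Finset.mul_sum, ← Finset.sum_sub_distrib]
      apply Finset.sum_congr rfl
      intro k _
      rw [Int.fract]
      ring
    have h2 : |((r c j : ℤ) : ℚ)| ≤ (ν * R : ℕ) := by
      rw [h1]
      calc |∑ k, Int.fract ((c : ℚ) * α k) * b k j|
          ≤ ∑ k, |Int.fract ((c : ℚ) * α k) * b k j| := Finset.abs_sum_le_sum_abs _ _
        _ ≤ ∑ k : Fin ν, (R : ℚ) := by
            apply Finset.sum_le_sum
            intro k _
            rw [abs_mul, abs_of_nonneg (Int.fract_nonneg _)]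
            have h3 : |(b k j : ℚ)| ≤ R := by
              have := mem_boxZ.1 (hbR k) j
              exact_mod_cast this
            calc Int.fract ((c : ℚ) * α k) * |(b k j : ℚ)| ≤ 1 * |(b k j : ℚ)| :=
                  mul_le_mul_of_nonneg_right (Int.fract_lt_one _).le (abs_nonneg _)
              _ = |(b k j : ℚ)| := one_mul _
              _ ≤ R := h3
        _ = (ν * R : ℕ) := by
            rw [Finset.sum_const, Finset.card_univ, Fintype.card_fin, nsmul_eq_mul]
            push_cast; ring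
    exact_mod_cast h2
  unfold cnt
  have hcard : I * ((boxZ q R).filter fun z => z ∈ L').card =
      (Finset.range I ×ˢ ((boxZ q R).filter fun z => z ∈ L')).card := by
    rw [Finset.card_product, Finset.card_range]
  rw [hcard]
  apply Finset.card_le_card_of_injOn (fun p => r p.1 + p.2)
  · rintro ⟨c, z⟩ hp
    rw [Finset.mem_coe, Finset.mem_product, Finset.mem_filter] at hp
    rw [Finset.mem_coe, Finset.mem_filter, mem_boxZ]
    refine ⟨?_, L.add_mem (hrL c) (hle hp.2.2)⟩
    intro j
    have h1 := mem_boxZ.1 hp.2.1 j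
    simp only at h1
    calc |(r c + z) j| = |r c j + z j| := rfl
      _ ≤ |r c j| + |z j| := abs_add_le _ _
      _ ≤ (ν * R : ℕ) + (R : ℤ) := add_le_add (hrbox c j) h1
      _ = (((ν + 1) * R : ℕ) : ℤ) := by push_cast; ring
  · rintro ⟨c, z⟩ hp ⟨c', z'⟩ hp' h
    rw [Finset.mem_coe, Finset.mem_product, Finset.mem_filter, Finset.mem_range] at hp hp'
    simp only at h hp hp'
    have h1 : ((c : ℤ) - c') • z0 = (∑ k, ⌊(c : ℚ) * α k⌋ • b k - ∑ k, ⌊(c' : ℚ) * α k⌋ • b k) +
        (z' - z) := by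
      have h2 : (c : ℤ) • z0 - ∑ k, ⌊(c : ℚ) * α k⌋ • b k + z =
          (c' : ℤ) • z0 - ∑ k, ⌊(c' : ℚ) * α k⌋ • b k + z' := h
      rw [sub_smul]
      have h3 : (c : ℤ) • z0 = (c' : ℤ) • z0 - ∑ k, ⌊(c' : ℚ) * α k⌋ • b k + z' - z +
          ∑ k, ⌊(c : ℚ) * α k⌋ • b k := by
        rw [← h2]; abel
      rw [h3]; abel
    have h4 : ((c : ℤ) - c') • z0 ∈ L' := by
      rw [h1]
      exact L'.add_mem (L'.sub_mem (L'.sum_mem fun k _ => L'.smul_mem _ (hb k))
        (L'.sum_mem fun k _ => L'.smul_mem _ (hb k))) (L'.sub_mem hp'.2.2 hp.2.2)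
    have h5 := hI c c' hp.1 hp'.1 h4
    subst h5
    have h6 : z = z' := by
      have := h
      exact add_left_cancel this
    rw [h6]

lemma cnt_le_of_proj {t : ℕ} (L : Submodule ℤ (Fin q → ℤ)) (e : Fin t → Fin q)
    (hinj : ∀ z ∈ L, (∀ l, z (e l) = 0) → z = 0) (R : ℕ) : cnt L R ≤ (2 * R + 1) ^ t := by
  classical
  unfold cnt
  have h1 : (boxZ t R).card = (2 * R + 1) ^ t := by
    unfold boxZ
    rw [Fintype.card_piFinset, Finset.prod_const, Finset.card_univ, Fintype.card_fin,
      Int.card_Icc]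
    congr 1
    omega
  rw [← h1]
  apply Finset.card_le_card_of_injOn (fun z l => z (e l))
  · intro z hz
    rw [Finset.mem_coe, Finset.mem_filter, mem_boxZ] at hz
    rw [Finset.mem_coe, mem_boxZ]
    exact fun l => hz.1 _
  · intro z hz z' hz' h
    rw [Finset.mem_coe, Finset.mem_filter] at hz hz'
    have h2 := hinj (z - z') (L.sub_mem hz.2 hz'.2) (fun l => by
      have := congrFun h l
      simp only at this
      rw [Pi.sub_apply, this, sub_self])
    exact sub_eq_zero.1 h2

end Pool.Agent.H30.Vino2
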