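import Mathlib
import Pool.Agent.H30.Vino.Base

/-!
Number theory for the lattice argument: for an integer `x` and fixed integers `y j`, the numbers
`|x - y j|`, stripped of their common factors with a fixed integer `B`, are pairwise coprime, and
their product is large for most `x`.
-/

set_option autoImplicit false

namespace Pool.Agent.H30.Vino2

open Pool.Agent.H30.Vino

lemma ds_dvd_of_dvd {x y y' d : ℕ} (h1 : d ∣ ds x y) (h2 : d ∣ ds x y') : d ∣ ds y y' := by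
  unfold ds at *
  rw [← Int.natCast_dvd] at *
  have := dvd_sub h2 h1
  have e : (x : ℤ) - y' - (x - y) = y - y' := by ring
  rwa [e] at this

variable {q : ℕ}

/-- The part of `|x - y j|` shared with `B`. -/
def gk (y : Fin q → ℕ) (B x : ℕ) (j : Fin q) : ℕ := Nat.gcd (ds x (y j)) B

/-- The modulus determined by the shared parts. -/
def Mk (y : Fin q → ℕ) (B x : ℕ) : ℕ := Finset.univ.lcm (gk y B x)

/-- The product of the unshared parts. -/
def Ik (y : Fin q → ℕ) (B x : ℕ) : ℕ := ∏ j, ds x (y j) / gk y B x j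

/-- The guaranteed `q`-th root size of `Ik`. -/
noncomputable def Tk (y : Fin q → ℕ) (B x : ℕ) : ℕ := max 1 (⨅ j, ds x (y j) / Mk y B x)

lemma gk_pos {y : Fin q → ℕ} {B x : ℕ} (hB : 0 < B) (j : Fin q) : 0 < gk y B x j :=
  Nat.gcd_pos_of_pos_right _ hB

lemma gk_dvd_B {y : Fin q → ℕ} {B x : ℕ} (j : Fin q) : gk y B x j ∣ B := Nat.gcd_dvd_right _ _

lemma gk_dvd_ds {y : Fin q → ℕ} {B x : ℕ} (j : Fin q) : gk y B x j ∣ ds x (y j) :=
  Nat.gcd_dvd_left _ _

lemma gk_dvd_Mk {y : Fin q → ℕ} {B x : ℕ} (j : Fin q) : gk y B x j ∣ Mk y B x :=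
  Finset.dvd_lcm (Finset.mem_univ j)

lemma Mk_dvd_B {y : Fin q → ℕ} {B x : ℕ} : Mk y B x ∣ B :=
  Finset.lcm_dvd fun j _ => gk_dvd_B j

lemma Mk_pos {y : Fin q → ℕ} {B x : ℕ} (hB : 0 < B) : 0 < Mk y B x :=
  Nat.pos_of_dvd_of_pos Mk_dvd_B hB

lemma coprime_quot {y : Fin q → ℕ} {B x : ℕ} (hB : 0 < B)
    (hdiff : ∀ j j', j ≠ j' → ds (y j) (y j') ∣ B)
    (j j' : Fin q) (hjj : j ≠ j') :
    Nat.Coprime (ds x (y j) / gk y B x j) (ds x (y j') / gk y B x j') := by
  have key : ∀ (p : ℕ), p.Prime → ∀ k, p ∣ ds x (y k) / gk y B x k →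
      p ^ (B.factorization p + 1) ∣ ds x (y k) := by
    intro p hp k hk
    have h1 : Nat.Coprime (ds x (y k) / gk y B x k) (B / gk y B x k) :=
      Nat.coprime_div_gcd_div_gcd (gk_pos hB k)
    have h2 : Nat.Coprime p (B / gk y B x k) := Nat.Coprime.coprime_dvd_left hk h1
    have h3 : p ^ B.factorization p ∣ gk y B x k * (B / gk y B x k) := by
      rw [Nat.mul_div_cancel' (gk_dvd_B k)]
      exact Nat.ordProj_dvd B p
    have h4 : p ^ B.factorization p ∣ gk y B x k :=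
      (Nat.Coprime.pow_left _ h2).dvd_of_dvd_mul_right h3
    have h5 : gk y B x k * (ds x (y k) / gk y B x k) = ds x (y k) :=
      Nat.mul_div_cancel' (gk_dvd_ds k)
    rw [← h5, pow_succ]
    exact Nat.mul_dvd_mul h4 hk
  apply Nat.Coprime.symm
  apply Nat.coprime_of_dvd
  intro p hp h1 h2
  have h3 := key p hp j h2
  have h4 := key p hp j' h1
  have h5 := (ds_dvd_of_dvd h3 h4).trans (hdiff j j' hjj)
  exact Nat.pow_succ_factorization_not_dvd hB.ne' hp h5

lemma Ik_pos {y : Fin q → ℕ} {B x : ℕ} (hB : 0 < B) (hx : ∀ j, 0 < ds x (y j)) :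
    0 < Ik y B x :=
  Finset.prod_pos fun j _ => Nat.div_pos (Nat.le_of_dvd (hx j) (gk_dvd_ds j)) (gk_pos hB j)

lemma Tk_pow_le {y : Fin q → ℕ} {B x : ℕ} (hB : 0 < B) (hx : ∀ j, 0 < ds x (y j)) :
    Tk y B x ^ q ≤ Ik y B x := by
  unfold Tk
  rcases max_choice 1 (⨅ j, ds x (y j) / Mk y B x) with h | h
  · rw [h, one_pow]; exact Ik_pos hB hx
  · rw [h]
    have : (⨅ j, ds x (y j) / Mk y B x) ^ q = ∏ j : Fin q, (⨅ j, ds x (y j) / Mk y B x) := by
      simp
    rw [this]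
    apply Finset.prod_le_prod'
    intro j _
    calc (⨅ j, ds x (y j) / Mk y B x) ≤ ds x (y j) / Mk y B x := ciInf_le' _ j
      _ ≤ ds x (y j) / gk y B x j :=
        Nat.div_le_div_left (Nat.le_of_dvd (Mk_pos hB) (gk_dvd_Mk j)) (gk_pos hB j)

/-- If all `|x - y j|` divide `c * z j` with `z j ∣ B`, then `Ik` divides `c`. -/
lemma Ik_dvd {y : Fin q → ℕ} {B x : ℕ} (hB : 0 < B)
    (hdiff : ∀ j j', j ≠ j' → ds (y j) (y j') ∣ B)
    (z : Fin q → ℕ) (hz : ∀ j, z j ∣ B) (c : ℕ) (h : ∀ j, ds x (y j) ∣ c * z j) :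
    Ik y B x ∣ c := by
  have h1 : ∀ j, ds x (y j) / gk y B x j ∣ c := by
    intro j
    have h2 : ds x (y j) ∣ c * B := (h j).trans (Nat.mul_dvd_mul_left _ (hz j))
    have h3 : gk y B x j * (ds x (y j) / gk y B x j) ∣ gk y B x j * (c * (B / gk y B x j)) := by
      rw [Nat.mul_div_cancel' (gk_dvd_ds j)]
      have : gk y B x j * (c * (B / gk y B x j)) = c * B := by
        rw [Nat.mul_left_comm, Nat.mul_div_cancel' (gk_dvd_B j)]
      rw [this]; exact h2
    have h4 := Nat.dvd_of_mul_dvd_mul_left (gk_pos hB j) h3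
    exact (Nat.coprime_div_gcd_div_gcd (gk_pos hB j)).dvd_of_dvd_mul_right h4
  unfold Ik
  apply Fintype.prod_dvd_of_isRelPrime
  · intro j j' hjj
    exact Nat.coprime_iff_isRelPrime.1 (coprime_quot hB hdiff j j' hjj)
  · exact h1

/-- The harmonic type sum. -/
noncomputable def hsum (N : ℕ) : ℝ := ∑ n ∈ Finset.range (N + 1), (1 : ℝ) / (max 1 n : ℕ)

lemma one_div_max_nonneg (n : ℕ) : (0 : ℝ) ≤ 1 / ((max 1 n : ℕ) : ℝ) := by positivity

lemma sum_fixed {y : Fin q → ℕ} {B N : ℕ} (hB : 0 < B) (hy : ∀ j, y j ∈ Finset.Icc 1 N)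
    (j : Fin q) :
    ∑ x ∈ (Finset.Icc 1 N).filter (fun x => ∀ k, x ≠ y k),
      (1 : ℝ) / ((max 1 (ds x (y j) / Mk y B x) : ℕ) : ℝ) ≤
      (B.divisors.card : ℝ) ^ q * (2 * hsum N) := by
  classical
  set X := (Finset.Icc 1 N).filter (fun x => ∀ k, x ≠ y k) with hX
  set Z : Finset ((Fin q → ℕ) × ℕ × Bool) :=
    (Fintype.piFinset fun _ : Fin q => B.divisors) ×ˢ
      (Finset.range (N + 1) ×ˢ (Finset.univ : Finset Bool)) with hZ
  set φ : ℕ → (Fin q → ℕ) × ℕ × Bool := fun x =>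
    (gk y B x, ds x (y j) / Mk y B x, decide (y j < x)) with hφ
  have hmaps : ∀ x ∈ X, φ x ∈ Z := by
    intro x hx
    rw [hX, Finset.mem_filter] at hx
    simp only [hφ, hZ, Finset.mem_product, Fintype.mem_piFinset, Finset.mem_range,
      Finset.mem_univ, and_true]
    refine ⟨fun k => Nat.mem_divisors.2 ⟨gk_dvd_B k, hB.ne'⟩, ?_⟩
    calc ds x (y j) / Mk y B x ≤ ds x (y j) := Nat.div_le_self _ _
      _ ≤ N := ds_le hx.1 (hy j)
      _ < N + 1 := Nat.lt_succ_self N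
  have hinj : ∀ x ∈ X, ∀ x' ∈ X, φ x = φ x' → x = x' := by
    intro x hx x' hx' h
    rw [hX, Finset.mem_filter] at hx hx'
    simp only [hφ, Prod.mk.injEq] at h
    obtain ⟨h1, h2, h3⟩ := h
    have hM : Mk y B x = Mk y B x' := by unfold Mk; rw [h1]
    have hcong : ((Mk y B x : ℕ) : ℤ) ∣ (x : ℤ) - x' := by
      rw [Int.natCast_dvd]
      apply Finset.lcm_dvd
      intro k _
      rw [← Int.natCast_dvd]
      have e1 : ((gk y B x k : ℕ) : ℤ) ∣ (x : ℤ) - y k := Int.natCast_dvd.2 (gk_dvd_ds k)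
      have e2 : ((gk y B x k : ℕ) : ℤ) ∣ (x' : ℤ) - y k := by
        rw [h1]; exact Int.natCast_dvd.2 (gk_dvd_ds k)
      have := dvd_sub e1 e2
      have e : (x : ℤ) - y k - (x' - y k) = x - x' := by ring
      rwa [e] at this
    rw [← hM] at h2
    have hMpos := Mk_pos (y := y) (x := x) hB
    have h4 := Nat.div_add_mod (ds x (y j)) (Mk y B x)
    have h5 := Nat.div_add_mod (ds x' (y j)) (Mk y B x)
    have h6 := Nat.mod_lt (ds x (y j)) hMpos
    have h7 := Nat.mod_lt (ds x' (y j)) hMpos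
    rw [← h2] at h5
    have h3' : y j < x ↔ y j < x' := by simpa using h3
    have hne := hx.2 j
    have hne' := hx'.2 j
    obtain ⟨c, hc⟩ := hcong
    have hlt : |(x : ℤ) - x'| < Mk y B x := by
      have e1 : (ds x (y j) : ℤ) - ds x' (y j) < Mk y B x := by
        have : ds x (y j) < Mk y B x + ds x' (y j) := by omega
        omega
      have e2 : (ds x' (y j) : ℤ) - ds x (y j) < Mk y B x := by
        have : ds x' (y j) < Mk y B x + ds x (y j) := by omega
        omega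
      unfold ds at e1 e2
      rw [abs_lt]
      omega
    have := Int.eq_zero_of_abs_lt_dvd ⟨c, hc⟩ hlt
    omega
  have hsumle : ∑ x ∈ X, (1 : ℝ) / ((max 1 (ds x (y j) / Mk y B x) : ℕ) : ℝ) ≤
      ∑ z ∈ Z, (1 : ℝ) / ((max 1 z.2.1 : ℕ) : ℝ) := by
    calc ∑ x ∈ X, (1 : ℝ) / ((max 1 (ds x (y j) / Mk y B x) : ℕ) : ℝ)
        = ∑ z ∈ X.image φ, (1 : ℝ) / ((max 1 z.2.1 : ℕ) : ℝ) := by
          rw [Finset.sum_image (fun x hx x' hx' h => hinj x hx x' hx' h)]
      _ ≤ _ := by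
          apply Finset.sum_le_sum_of_subset_of_nonneg
          · intro z hz
            obtain ⟨x, hx, rfl⟩ := Finset.mem_image.1 hz
            exact hmaps x hx
          · intro z _ _
            exact one_div_max_nonneg _
  refine hsumle.trans (le_of_eq ?_)
  rw [hZ, Finset.sum_product]
  simp only [Finset.sum_product, Finset.sum_const, Finset.card_univ, Fintype.card_bool,
    Fintype.card_piFinset, Finset.prod_const, Fintype.card_fin]
  unfold hsum
  rw [nsmul_eq_mul, Finset.mul_sum, Finset.mul_sum, Finset.mul_sum]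
  apply Finset.sum_congr rfl
  intro n _
  rw [nsmul_eq_mul]
  push_cast
  ring

theorem sum_inv_Tk {y : Fin q → ℕ} {B N : ℕ} (hq : 0 < q) (hB : 0 < B)
    (hy : ∀ j, y j ∈ Finset.Icc 1 N) :
    ∑ x ∈ (Finset.Icc 1 N).filter (fun x => ∀ k, x ≠ y k), (1 : ℝ) / (Tk y B x : ℝ) ≤
      q * ((B.divisors.card : ℝ) ^ q * (2 * hsum N)) := by
  classical
  have : Nonempty (Fin q) := ⟨⟨0, hq⟩⟩
  calc ∑ x ∈ (Finset.Icc 1 N).filter (fun x => ∀ k, x ≠ y k), (1 : ℝ) / (Tk y B x : ℝ)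
      ≤ ∑ x ∈ (Finset.Icc 1 N).filter (fun x => ∀ k, x ≠ y k),
          ∑ j : Fin q, (1 : ℝ) / ((max 1 (ds x (y j) / Mk y B x) : ℕ) : ℝ) := by
        apply Finset.sum_le_sum
        intro x _
        obtain ⟨j, hj⟩ := exists_eq_ciInf_of_finite (f := fun j => ds x (y j) / Mk y B x)
        have h1 : (1 : ℝ) / (Tk y B x : ℝ) =
            (1 : ℝ) / ((max 1 (ds x (y j) / Mk y B x) : ℕ) : ℝ) := by
          unfold Tk
          rw [← hj]
        rw [h1]
        exact Finset.single_le_sum (f := fun j =>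
          (1 : ℝ) / ((max 1 (ds x (y j) / Mk y B x) : ℕ) : ℝ))
          (fun k _ => one_div_max_nonneg _) (Finset.mem_univ j)
    _ = ∑ j : Fin q, ∑ x ∈ (Finset.Icc 1 N).filter (fun x => ∀ k, x ≠ y k),
          (1 : ℝ) / ((max 1 (ds x (y j) / Mk y B x) : ℕ) : ℝ) := Finset.sum_comm
    _ ≤ ∑ j : Fin q, (B.divisors.card : ℝ) ^ q * (2 * hsum N) :=
        Finset.sum_le_sum fun j _ => sum_fixed hB hy j
    _ = q * ((B.divisors.card : ℝ) ^ q * (2 * hsum N)) := by
        rw [Finset.sum_const, Finset.card_univ, Fintype.card_fin, nsmul_eq_mul]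

end Pool.Agent.H30.Vino2
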