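import Mathlib
import Pool.Agent.H30.Vino2.NT
import Pool.Agent.H30.Vino2.Lat

/-!
The counting induction: a potential argument with the subgroup generated by the shift products.
-/

set_option autoImplicit false

namespace Pool.Agent.H30.Vino2

open Pool.Agent.H30.Vino

variable {q : ℕ}

/-- Integer vectors as rational vectors. -/
def castv (z : Fin q → ℤ) : Fin q → ℚ := fun j => (z j : ℚ)

/-- The rank of the rational span. -/
noncomputable def rkS (A : Set (Fin q → ℤ)) : ℕ :=
  Module.finrank ℚ (Submodule.span ℚ (castv '' A))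

lemma rkS_mono {A A' : Set (Fin q → ℤ)} (h : A' ⊆ A) : rkS A' ≤ rkS A := by
  unfold rkS
  exact Submodule.finrank_mono (Submodule.span_mono (Set.image_mono h))

lemma rkS_le (A : Set (Fin q → ℤ)) : rkS A ≤ q := by
  unfold rkS
  have := Submodule.finrank_le (Submodule.span ℚ (castv '' A))
  simpa using this

lemma one_le_rkS {A : Set (Fin q → ℤ)} (z : Fin q → ℤ) (hz : z ∈ A) (j : Fin q) (hj : z j ≠ 0) :
    1 ≤ rkS A := by
  unfold rkS
  rw [Submodule.one_le_finrank_iff]
  intro h
  have h1 : castv z ∈ Submodule.span ℚ (castv '' A) := Submodule.subset_span ⟨z, hz, rfl⟩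
  rw [h, Submodule.mem_bot] at h1
  have h2 := congrFun h1 j
  simp only [castv, Pi.zero_apply, Int.cast_eq_zero] at h2
  exact hj h2

theorem nondrop_step {y : Fin q → ℕ} {B R x0 : ℕ} (A Ax : Set (Fin q → ℤ)) (hsub : Ax ⊆ A)
    (hbox : ∀ z ∈ Ax, z ∈ boxZ q R) (hdvd : ∀ z ∈ Ax, ∀ j, ((x0 : ℤ) - y j) ∣ z j)
    (hrk : rkS Ax = rkS A) (z0 : Fin q → ℤ) (hz0 : z0 ∈ A) (hB : 0 < B)
    (hz0B : ∀ j, (z0 j).natAbs ∣ B) (hdiff : ∀ j j', j ≠ j' → ds (y j) (y j') ∣ B)
    (hx0 : ∀ j, 0 < ds x0 (y j)) :
    Tk y B x0 ^ q * cnt (Submodule.span ℤ Ax) R ≤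
      (2 * q + 3) ^ q * cnt (Submodule.span ℤ A) R := by
  classical
  have hspan : Submodule.span ℚ (castv '' Ax) = Submodule.span ℚ (castv '' A) := by
    apply Submodule.eq_of_le_of_finrank_eq (Submodule.span_mono (Set.image_mono hsub))
    exact hrk
  obtain ⟨f, hf1, hf2, -⟩ := Submodule.exists_fun_fin_finrank_span_eq ℚ (castv '' Ax)
  have hz0span : castv z0 ∈ Submodule.span ℚ (Set.range f) := by
    rw [hf2, hspan]
    exact Submodule.subset_span ⟨z0, hz0, rfl⟩
  rw [Submodule.mem_span_range_iff_exists_fun] at hz0span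
  obtain ⟨α, hα⟩ := hz0span
  choose b hb1 hb2 using hf1
  have hdvdspan : ∀ z ∈ Submodule.span ℤ Ax, ∀ j, ((x0 : ℤ) - y j) ∣ z j := by
    intro z hz
    induction hz using Submodule.span_induction with
    | mem z hz => exact hdvd z hz
    | zero => intro j; simp
    | add z z' _ _ h1 h2 => intro j; exact dvd_add (h1 j) (h2 j)
    | smul a z _ h1 => intro j; exact Dvd.dvd.mul_left (h1 j) a
  have h1 := cnt_index (ν := Module.finrank ℚ (Submodule.span ℚ (castv '' Ax)))
    (Submodule.span ℤ A) (Submodule.span ℤ Ax) (Submodule.span_mono hsub) R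
    (Ik y B x0) z0 (Submodule.subset_span hz0) b (fun k => Submodule.subset_span (hb1 k))
    (fun k => hbox _ (hb1 k)) α (by
      intro j
      have h2 := congrFun hα j
      rw [Finset.sum_apply] at h2
      simp only [Pi.smul_apply, smul_eq_mul] at h2
      change ((z0 j : ℤ) : ℚ) = _
      rw [show ((z0 j : ℤ) : ℚ) = castv z0 j from rfl, ← h2]
      apply Finset.sum_congr rfl
      intro k _
      rw [← hb2 k]
      rfl) (by
      intro c c' hc hc' hmem
      have h3 := hdvdspan _ hmem
      have h4 : Ik y B x0 ∣ ((c : ℤ) - c').natAbs := by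
        apply Ik_dvd hB hdiff (fun j => (z0 j).natAbs) hz0B
        intro j
        have h5 := h3 j
        rw [Pi.smul_apply, smul_eq_mul] at h5
        have h6 := Int.natAbs_dvd_natAbs.2 h5
        rw [Int.natAbs_mul] at h6
        exact h6
      have h7 : ((c : ℤ) - c').natAbs = 0 := by
        apply Nat.eq_zero_of_dvd_of_lt h4
        omega
      omega)
  have h2 := cnt_doubling (Submodule.span ℤ A)
    (Module.finrank ℚ (Submodule.span ℚ (castv '' Ax)) + 1) R
  have h3 : Module.finrank ℚ (Submodule.span ℚ (castv '' Ax)) ≤ q := rkS_le Ax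
  calc Tk y B x0 ^ q * cnt (Submodule.span ℤ Ax) R
      ≤ Ik y B x0 * cnt (Submodule.span ℤ Ax) R := Nat.mul_le_mul_right _ (Tk_pow_le hB hx0)
    _ ≤ _ := h1
    _ ≤ _ := h2
    _ ≤ (2 * q + 3) ^ q * cnt (Submodule.span ℤ A) R := by
        apply Nat.mul_le_mul_right
        apply Nat.pow_le_pow_left
        omega

/-- The shift products as integers. -/
def Zi {m : ℕ} (y : Fin q → ℕ) (x : Fin m → ℕ) : Fin q → ℤ := fun j => ∏ i, ((x i : ℤ) - y j)

/-- The scaled shift product vectors of a family of vectors. -/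
def vecs {m : ℕ} (y : Fin q → ℕ) (lam : Fin q → ℤ) (F : Finset (Fin m → ℕ)) :
    Set (Fin q → ℤ) := (fun x j => lam j * Zi y x j) '' (F : Set (Fin m → ℕ))

/-- The `q`-th root of the number of lattice points. -/
noncomputable def rt (R : ℕ) (A : Set (Fin q → ℤ)) : ℝ :=
  (cnt (Submodule.span ℤ A) R : ℝ) ^ ((q : ℝ)⁻¹)

lemma rt_nonneg (R : ℕ) (A : Set (Fin q → ℤ)) : 0 ≤ rt R A := Real.rpow_nonneg (by positivity) _

lemma one_le_rt (R : ℕ) (A : Set (Fin q → ℤ)) : 1 ≤ rt R A := by
  unfold rt
  apply Real.one_le_rpow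
  · exact_mod_cast one_le_cnt _ _
  · positivity

lemma rt_mono (R : ℕ) {A A' : Set (Fin q → ℤ)} (h : A' ⊆ A) : rt R A' ≤ rt R A := by
  unfold rt
  apply Real.rpow_le_rpow (by positivity)
  · exact_mod_cast cnt_mono (Submodule.span_mono h) R
  · positivity

lemma rt_nondrop (hq : 0 < q) {R T : ℕ} {A A' : Set (Fin q → ℤ)}
    (h : T ^ q * cnt (Submodule.span ℤ A') R ≤ (2 * q + 3) ^ q * cnt (Submodule.span ℤ A) R) :
    (T : ℝ) * rt R A' ≤ (2 * q + 3) * rt R A := by
  unfold rt
  have h1 : ((T : ℝ) ^ q * (cnt (Submodule.span ℤ A') R : ℝ)) ^ ((q : ℝ)⁻¹) ≤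
      ((2 * q + 3 : ℝ) ^ q * (cnt (Submodule.span ℤ A) R : ℝ)) ^ ((q : ℝ)⁻¹) := by
    apply Real.rpow_le_rpow (by positivity)
    · exact_mod_cast h
    · positivity
  rw [Real.mul_rpow (by positivity) (by positivity), Real.mul_rpow (by positivity) (by positivity),
    Real.pow_rpow_inv_natCast (by positivity) hq.ne',
    Real.pow_rpow_inv_natCast (by positivity) hq.ne'] at h1
  exact h1

/-- The growth constant of one step. -/
noncomputable def Kst (q N : ℕ) (D : ℝ) : ℝ := 1 + (2 * q + 3) * (q * (D ^ q * (2 * hsum N)))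

lemma hsum_nonneg (N : ℕ) : 0 ≤ hsum N :=
  Finset.sum_nonneg fun n _ => one_div_max_nonneg n

lemma one_le_Kst (q N : ℕ) {D : ℝ} (hD : 0 ≤ D) : 1 ≤ Kst q N D := by
  unfold Kst
  have := hsum_nonneg N
  have h : 0 ≤ (2 * (q : ℝ) + 3) * (q * (D ^ q * (2 * hsum N))) := by positivity
  linarith

lemma Zi_succ {m : ℕ} (y : Fin q → ℕ) (x : Fin (m + 1) → ℕ) (j : Fin q) :
    Zi y x j = ((x 0 : ℤ) - y j) * Zi y (Fin.tail x) j := by
  unfold Zi
  rw [Fin.prod_univ_succ]
  rfl

lemma abs_Zi_le {m N : ℕ} {y : Fin q → ℕ} (hyN : ∀ j, y j ∈ Finset.Icc 1 N) {x : Fin m → ℕ}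
    (hx : ∀ i, x i ∈ Finset.Icc 1 N) (j : Fin q) : |Zi y x j| ≤ (N : ℤ) ^ m := by
  unfold Zi
  rw [Finset.abs_prod]
  calc ∏ i, |(x i : ℤ) - y j| ≤ ∏ i : Fin m, (N : ℤ) := by
        apply Finset.prod_le_prod
        · intro i _; exact abs_nonneg _
        · intro i _
          have h1 := hx i
          have h2 := hyN j
          rw [Finset.mem_Icc] at h1 h2
          rw [abs_le]
          constructor <;> omega
    _ = (N : ℤ) ^ m := by simp

theorem main_count (hq : 0 < q) {N R : ℕ} (hN : 1 ≤ N) {y : Fin q → ℕ}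
    (hyinj : Function.Injective y) (hyN : ∀ j, y j ∈ Finset.Icc 1 N) {D : ℝ} (hD0 : 0 ≤ D)
    (hD : ∀ B : ℕ, 0 < B → B ≤ R ^ q * N ^ (q * q) → (B.divisors.card : ℝ) ≤ D) (m : ℕ) :
    ∀ (lam : Fin q → ℤ), (∀ j, lam j ≠ 0) → (∀ j, |lam j| * (N : ℤ) ^ m ≤ R) →
      ∀ F : Finset (Fin m → ℕ), (∀ x ∈ F, ∀ i, x i ∈ Finset.Icc 1 N) →
      (∀ x ∈ F, ∀ i j, x i ≠ y j) →
      (N : ℝ) * F.card ≤ Kst q N D ^ m * (N : ℝ) ^ rkS (vecs y lam F) * rt R (vecs y lam F) := by
  classical
  have hN0 : (0 : ℝ) < N := by exact_mod_cast hN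
  have hN1 : (1 : ℝ) ≤ N := by exact_mod_cast hN
  have hK1 := one_le_Kst q N hD0
  induction m with
  | zero =>
    intro lam hlam hR F hbox hadm
    rcases Finset.eq_empty_or_nonempty F with rfl | ⟨x, hx⟩
    · simp only [Finset.card_empty, Nat.cast_zero, mul_zero]
      have := rt_nonneg R (vecs y lam (∅ : Finset (Fin 0 → ℕ)))
      positivity
    · have hcard : F.card ≤ 1 := Finset.card_le_one.2 fun a _ b _ => Subsingleton.elim a b
      have hmem : (fun j => lam j * Zi y x j) ∈ vecs y lam F := ⟨x, hx, rfl⟩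
      have hrk : 1 ≤ rkS (vecs y lam F) := by
        apply one_le_rkS _ hmem ⟨0, hq⟩
        unfold Zi
        simpa using hlam _
      calc (N : ℝ) * F.card ≤ N * 1 := by
            apply mul_le_mul_of_nonneg_left _ hN0.le
            exact_mod_cast hcard
        _ = (N : ℝ) ^ 1 := by ring
        _ ≤ (N : ℝ) ^ rkS (vecs y lam F) := pow_le_pow_right₀ hN1 hrk
        _ ≤ (N : ℝ) ^ rkS (vecs y lam F) * rt R (vecs y lam F) :=
            le_mul_of_one_le_right (by positivity) (one_le_rt _ _)
        _ = _ := by rw [pow_zero, one_mul]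
  | succ m ih =>
    intro lam hlam hR F hbox hadm
    rcases Finset.eq_empty_or_nonempty F with rfl | ⟨w, hw⟩
    · simp only [Finset.card_empty, Nat.cast_zero, mul_zero]
      have := rt_nonneg R (vecs y lam (∅ : Finset (Fin (m + 1) → ℕ)))
      positivity
    set A := vecs y lam F with hA
    set X := (Finset.Icc 1 N).filter (fun x => ∀ k, x ≠ y k) with hX
    have hAbox : ∀ z ∈ A, z ∈ boxZ q R := by
      rintro z ⟨x, hx, rfl⟩
      rw [mem_boxZ]
      intro j
      simp only [abs_mul]
      exact (mul_le_mul_of_nonneg_left (abs_Zi_le hyN (hbox x hx) j) (abs_nonneg _)).trans (hR j)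
    -- the base vector and the number `B`
    set z0 : Fin q → ℤ := fun j => lam j * Zi y w j with hz0def
    have hz0 : z0 ∈ A := ⟨w, hw, rfl⟩
    have hz0ne : ∀ j, z0 j ≠ 0 := by
      intro j
      apply mul_ne_zero (hlam j)
      unfold Zi
      rw [Finset.prod_ne_zero_iff]
      intro i _
      rw [sub_ne_zero]
      exact_mod_cast hadm w hw i j
    set P1 := ∏ j, (z0 j).natAbs with hP1
    set P2 := ∏ j, ∏ j', (if j = j' then 1 else ds (y j) (y j')) with hP2
    set B := P1 * P2 with hBdef
    have hP1pos : 0 < P1 := Finset.prod_pos fun j _ => Int.natAbs_pos.2 (hz0ne j)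
    have hP2pos : 0 < P2 := by
      apply Finset.prod_pos
      intro j _
      apply Finset.prod_pos
      intro j' _
      split_ifs with h
      · exact one_pos
      · exact ds_pos (fun h' => h (hyinj h'))
    have hB : 0 < B := Nat.mul_pos hP1pos hP2pos
    have hBle : B ≤ R ^ q * N ^ (q * q) := by
      apply Nat.mul_le_mul
      · calc P1 ≤ ∏ j : Fin q, R := by
              apply Finset.prod_le_prod'
              intro j _
              have := mem_boxZ.1 (hAbox z0 hz0) j
              rw [Int.abs_eq_natAbs] at this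
              exact_mod_cast this
          _ = R ^ q := by simp
      · calc P2 ≤ ∏ j : Fin q, ∏ j' : Fin q, N := by
              apply Finset.prod_le_prod'
              intro j _
              apply Finset.prod_le_prod'
              intro j' _
              split_ifs with h
              · exact hN
              · exact ds_le (hyN j) (hyN j')
          _ = N ^ (q * q) := by simp [← pow_mul]
    have hz0B : ∀ j, (z0 j).natAbs ∣ B := fun j =>
      Dvd.dvd.mul_right (Finset.dvd_prod_of_mem (fun j => (z0 j).natAbs) (Finset.mem_univ j)) _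
    have hdiff : ∀ j j', j ≠ j' → ds (y j) (y j') ∣ B := by
      intro j j' h
      apply Dvd.dvd.mul_left
      have h1 : (∏ j', (if j = j' then 1 else ds (y j) (y j'))) ∣ P2 :=
        Finset.dvd_prod_of_mem (fun j => ∏ j', (if j = j' then 1 else ds (y j) (y j')))
          (Finset.mem_univ j)
      have h2 : (if j = j' then 1 else ds (y j) (y j')) ∣
          ∏ j', (if j = j' then 1 else ds (y j) (y j')) :=
        Finset.dvd_prod_of_mem (fun j' => if j = j' then 1 else ds (y j) (y j'))
          (Finset.mem_univ j')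
      rw [if_neg h] at h2
      exact h2.trans h1
    -- one fibre
    have hfib : ∀ x0 ∈ X, (N : ℝ) * ((F.filter fun x => x 0 = x0).card : ℝ) ≤
        Kst q N D ^ m * (N : ℝ) ^ rkS A * rt R A *
          (1 / N + (2 * q + 3) * (1 / (Tk y B x0 : ℝ))) := by
      intro x0 hx0
      rw [hX, Finset.mem_filter] at hx0
      set lam' : Fin q → ℤ := fun j => lam j * ((x0 : ℤ) - y j) with hlam'
      set Fx := (F.filter fun x => x 0 = x0).image (Fin.tail : (Fin (m + 1) → ℕ) → _) with hFx
      have hcardFx : Fx.card = (F.filter fun x => x 0 = x0).card := by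
        apply Finset.card_image_of_injOn
        intro x hx x' hx' h
        rw [Finset.mem_coe, Finset.mem_filter] at hx hx'
        rw [← Fin.cons_self_tail x, ← Fin.cons_self_tail x', hx.2, hx'.2, h]
      have hsubA : vecs y lam' Fx ⊆ A := by
        rintro z ⟨x', hx', rfl⟩
        rw [Finset.mem_coe, hFx, Finset.mem_image] at hx'
        obtain ⟨x, hx, rfl⟩ := hx'
        rw [Finset.mem_filter] at hx
        refine ⟨x, hx.1, ?_⟩
        funext j
        simp only [hlam', Zi_succ, hx.2]
        ring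
      have hx0ne : ∀ j, (x0 : ℤ) - y j ≠ 0 := by
        intro j
        rw [sub_ne_zero]
        exact_mod_cast hx0.2 j
      have hih := ih lam' (fun j => mul_ne_zero (hlam j) (hx0ne j)) (by
          intro j
          have h1 : |(x0 : ℤ) - y j| ≤ N := by
            have h1 := hx0.1
            have h2 := hyN j
            rw [Finset.mem_Icc] at h1 h2
            rw [abs_le]
            constructor <;> omega
          calc |lam' j| * (N : ℤ) ^ m = |lam j| * |(x0 : ℤ) - y j| * (N : ℤ) ^ m := by
                simp only [hlam', abs_mul]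
            _ ≤ |lam j| * N * (N : ℤ) ^ m := by
                apply mul_le_mul_of_nonneg_right _ (by positivity)
                exact mul_le_mul_of_nonneg_left h1 (abs_nonneg _)
            _ = |lam j| * (N : ℤ) ^ (m + 1) := by ring
            _ ≤ R := hR j) Fx (by
          intro x' hx' i
          rw [hFx, Finset.mem_image] at hx'
          obtain ⟨x, hx, rfl⟩ := hx'
          exact hbox x (Finset.mem_filter.1 hx).1 _) (by
          intro x' hx' i j
          rw [hFx, Finset.mem_image] at hx'
          obtain ⟨x, hx, rfl⟩ := hx'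
          exact hadm x (Finset.mem_filter.1 hx).1 _ j)
      rw [hcardFx] at hih
      have hTpos : (0 : ℝ) < Tk y B x0 := by
        have : 1 ≤ Tk y B x0 := le_max_left _ _
        exact_mod_cast this
      have hcoef : 0 ≤ Kst q N D ^ m := by positivity
      rcases lt_or_eq_of_le (rkS_mono hsubA) with hlt | heq
      · -- the rank drops
        have h1 : (N : ℝ) ^ rkS (vecs y lam' Fx) ≤ (N : ℝ) ^ rkS A * (1 / N) := by
          rw [mul_one_div, le_div_iff₀ hN0, ← pow_succ]
          exact pow_le_pow_right₀ hN1 hlt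
        calc (N : ℝ) * ((F.filter fun x => x 0 = x0).card : ℝ)
            ≤ Kst q N D ^ m * (N : ℝ) ^ rkS (vecs y lam' Fx) * rt R (vecs y lam' Fx) := hih
          _ ≤ Kst q N D ^ m * ((N : ℝ) ^ rkS A * (1 / N)) * rt R A := by
              apply mul_le_mul _ (rt_mono R hsubA) (rt_nonneg _ _) (by positivity)
              exact mul_le_mul_of_nonneg_left h1 hcoef
          _ = Kst q N D ^ m * (N : ℝ) ^ rkS A * rt R A * (1 / N) := by ring
          _ ≤ _ := by
              apply mul_le_mul_of_nonneg_left _ (mul_nonneg (by positivity) (rt_nonneg _ _))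
              have : 0 ≤ (2 * (q : ℝ) + 3) * (1 / (Tk y B x0 : ℝ)) := by positivity
              linarith
      · -- the rank does not drop
        have h2 := nondrop_step (y := y) (B := B) (R := R) (x0 := x0) A (vecs y lam' Fx) hsubA
          (fun z hz => hAbox z (hsubA hz)) (by
            rintro z ⟨x', -, rfl⟩ j
            exact Dvd.dvd.mul_right (Dvd.dvd.mul_left (dvd_refl _) _) _) heq z0 hz0 hB hz0B hdiff
          (fun j => ds_pos (hx0.2 j))
        have h3 := rt_nondrop hq h2
        have h4 : rt R (vecs y lam' Fx) ≤ (2 * q + 3) * (1 / (Tk y B x0 : ℝ)) * rt R A := by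
          have : (2 * (q : ℝ) + 3) * (1 / (Tk y B x0 : ℝ)) * rt R A =
              ((2 * q + 3) * rt R A) / (Tk y B x0 : ℝ) := by ring
          rw [this, le_div_iff₀ hTpos]
          linarith
        rw [heq] at hih
        calc (N : ℝ) * ((F.filter fun x => x 0 = x0).card : ℝ)
            ≤ Kst q N D ^ m * (N : ℝ) ^ rkS A * rt R (vecs y lam' Fx) := hih
          _ ≤ Kst q N D ^ m * (N : ℝ) ^ rkS A *
              ((2 * q + 3) * (1 / (Tk y B x0 : ℝ)) * rt R A) :=
              mul_le_mul_of_nonneg_left h4 (by positivity)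
          _ = Kst q N D ^ m * (N : ℝ) ^ rkS A * rt R A *
              ((2 * q + 3) * (1 / (Tk y B x0 : ℝ))) := by ring
          _ ≤ _ := by
              apply mul_le_mul_of_nonneg_left _ (mul_nonneg (by positivity) (rt_nonneg _ _))
              have : 0 ≤ (1 : ℝ) / N := by positivity
              linarith
    have hFcard : F.card = ∑ x0 ∈ X, (F.filter fun x => x 0 = x0).card := by
      apply Finset.card_eq_sum_card_fiberwise
      intro x hx
      rw [Finset.mem_coe, hX, Finset.mem_filter]
      exact ⟨hbox x hx 0, fun k => hadm x hx 0 k⟩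
    have hsumT := sum_inv_Tk (y := y) (B := B) (N := N) hq hB hyN
    have hDB := hD B hB hBle
    have hXcard : (X.card : ℝ) ≤ N := by
      have : X.card ≤ N := by
        calc X.card ≤ (Finset.Icc 1 N).card := Finset.card_filter_le _ _
          _ = N := by simp
      exact_mod_cast this
    have hsum : ∑ x0 ∈ X, (1 / (N : ℝ) + (2 * q + 3) * (1 / (Tk y B x0 : ℝ))) ≤ Kst q N D := by
      rw [Finset.sum_add_distrib, Finset.sum_const, ← Finset.mul_sum, nsmul_eq_mul]
      unfold Kst
      apply add_le_add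
      · rw [mul_one_div]
        exact (div_le_one hN0).2 hXcard
      · apply mul_le_mul_of_nonneg_left _ (by positivity)
        refine hsumT.trans ?_
        apply mul_le_mul_of_nonneg_left _ (by positivity)
        apply mul_le_mul_of_nonneg_right _ (mul_nonneg (by norm_num) (hsum_nonneg N))
        exact pow_le_pow_left₀ (by positivity) hDB q
    calc (N : ℝ) * F.card = ∑ x0 ∈ X, (N : ℝ) * ((F.filter fun x => x 0 = x0).card : ℝ) := by
          rw [hFcard]
          push_cast
          rw [Finset.mul_sum]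
      _ ≤ ∑ x0 ∈ X, Kst q N D ^ m * (N : ℝ) ^ rkS A * rt R A *
          (1 / N + (2 * q + 3) * (1 / (Tk y B x0 : ℝ))) := Finset.sum_le_sum hfib
      _ = Kst q N D ^ m * (N : ℝ) ^ rkS A * rt R A *
          ∑ x0 ∈ X, (1 / (N : ℝ) + (2 * q + 3) * (1 / (Tk y B x0 : ℝ))) := by
          rw [Finset.mul_sum]
      _ ≤ Kst q N D ^ m * (N : ℝ) ^ rkS A * rt R A * Kst q N D := by
          apply mul_le_mul_of_nonneg_left hsum
          exact mul_nonneg (by positivity) (rt_nonneg _ _)
      _ = Kst q N D ^ (m + 1) * (N : ℝ) ^ rkS A * rt R A := by ring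

end Pool.Agent.H30.Vino2
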