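import Mathlib
import Pool.Agent.H30.Vino2.Count
import Pool.Agent.H30.Vino.Divisor

/-!
Analytic bounds: the growth constant of one step is `O(N^ε)`.
-/

set_option autoImplicit false

namespace Pool.Agent.H30.Vino2

open Pool.Agent.H30.Vino

theorem tau_le (E : ℕ) (ε : ℝ) (hε : 0 < ε) :
    ∃ C : ℝ, 0 < C ∧ ∀ N : ℕ, 1 ≤ N → ∀ B : ℕ, 0 < B → B ≤ N ^ E →
      (B.divisors.card : ℝ) ≤ C * (N : ℝ) ^ ε := by
  obtain ⟨k0, hk0⟩ := exists_nat_ge ((E : ℝ) / ε)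
  set k := k0 + 1 with hk
  have hkpos : 0 < k := Nat.succ_pos _
  obtain ⟨C₀, hC₀, hdiv⟩ := card_divisors_pow_le k
  refine ⟨(C₀ : ℝ) ^ ((k : ℝ)⁻¹), Real.rpow_pos_of_pos (by exact_mod_cast hC₀) _, ?_⟩
  intro N hN B hB hBE
  have hN1 : (1 : ℝ) ≤ N := by exact_mod_cast hN
  have h1 : ((B.divisors.card : ℝ)) ^ k ≤ C₀ * (N : ℝ) ^ E := by
    have h2 := (hdiv B hB).trans (Nat.mul_le_mul_left _ hBE)
    exact_mod_cast h2
  have h3 : ((B.divisors.card : ℝ) ^ k) ^ ((k : ℝ)⁻¹) ≤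
      ((C₀ : ℝ) * (N : ℝ) ^ E) ^ ((k : ℝ)⁻¹) :=
    Real.rpow_le_rpow (by positivity) h1 (by positivity)
  rw [Real.pow_rpow_inv_natCast (by positivity) hkpos.ne',
    Real.mul_rpow (by positivity) (by positivity)] at h3
  refine h3.trans ?_
  apply mul_le_mul_of_nonneg_left _ (by positivity)
  rw [← Real.rpow_natCast, ← Real.rpow_mul (by positivity)]
  apply Real.rpow_le_rpow_of_exponent_le hN1
  rw [← div_eq_mul_inv, div_le_iff₀ (by exact_mod_cast hkpos)]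
  have h4 : (E : ℝ) ≤ k0 * ε := (div_le_iff₀ hε).1 hk0
  have h5 : (k : ℝ) = k0 + 1 := by rw [hk]; push_cast; ring
  rw [h5]
  nlinarith

lemma hsum_eq (N : ℕ) : hsum N = 1 + (harmonic N : ℚ) := by
  unfold hsum harmonic
  rw [Finset.sum_range_succ']
  simp only [Nat.cast_max, Nat.cast_one]
  have h : ∑ k ∈ Finset.range N, (1 : ℝ) / (max 1 ((k + 1 : ℕ) : ℝ)) =
      ∑ k ∈ Finset.range N, (((k + 1 : ℕ) : ℝ))⁻¹ := by
    apply Finset.sum_congr rfl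
    intro k _
    rw [max_eq_right, one_div]
    have : (1 : ℝ) ≤ ((k + 1 : ℕ) : ℝ) := by
      push_cast
      have : (0 : ℝ) ≤ k := by positivity
      linarith
    exact this
  rw [h]
  push_cast
  simp
  ring

lemma hsum_le (ε : ℝ) (hε : 0 < ε) :
    ∃ C : ℝ, 0 < C ∧ ∀ N : ℕ, 1 ≤ N → hsum N ≤ C * (N : ℝ) ^ ε := by
  refine ⟨2 + 1 / ε, by positivity, ?_⟩
  intro N hN
  have hN1 : (1 : ℝ) ≤ N := by exact_mod_cast hN
  have h1 := harmonic_le_one_add_log N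
  have h2 := Real.log_natCast_le_rpow_div N hε
  have h3 : (1 : ℝ) ≤ (N : ℝ) ^ ε := Real.one_le_rpow hN1 hε.le
  rw [hsum_eq]
  have h4 : (2 + 1 / ε) * (N : ℝ) ^ ε = 2 * (N : ℝ) ^ ε + (N : ℝ) ^ ε / ε := by ring
  rw [h4]
  linarith

theorem Kst_bound (q s : ℕ) (ε : ℝ) (hε : 0 < ε) :
    ∃ C : ℝ, 0 < C ∧ ∀ N : ℕ, 1 ≤ N → ∃ D : ℝ, 0 ≤ D ∧
      (∀ B : ℕ, 0 < B → B ≤ (N ^ s) ^ q * N ^ (q * q) → (B.divisors.card : ℝ) ≤ D) ∧
      Kst q N D ^ s ≤ C * (N : ℝ) ^ ε := by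
  set ε₁ : ℝ := ε / ((s + 1) * (q + 1)) with hε₁
  have hε₁pos : 0 < ε₁ := by positivity
  obtain ⟨C₁, hC₁, h1⟩ := tau_le (s * q + q * q) ε₁ hε₁pos
  obtain ⟨C₂, hC₂, h2⟩ := hsum_le ε₁ hε₁pos
  refine ⟨(1 + (2 * q + 3) * (q * (C₁ ^ q * (2 * C₂)))) ^ s, by positivity, ?_⟩
  intro N hN
  have hN1 : (1 : ℝ) ≤ N := by exact_mod_cast hN
  refine ⟨C₁ * (N : ℝ) ^ ε₁, by positivity, ?_, ?_⟩
  · intro B hB hBle
    apply h1 N hN B hB
    refine hBle.trans (le_of_eq ?_)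
    rw [← pow_mul, ← pow_add]
  · have h3 : Kst q N (C₁ * (N : ℝ) ^ ε₁) ≤
        (1 + (2 * q + 3) * (q * (C₁ ^ q * (2 * C₂)))) * (N : ℝ) ^ (ε₁ * (q + 1)) := by
      unfold Kst
      have h4 : (1 : ℝ) ≤ (N : ℝ) ^ (ε₁ * (q + 1)) := Real.one_le_rpow hN1 (by positivity)
      have h5 : (C₁ * (N : ℝ) ^ ε₁) ^ q * (2 * hsum N) ≤
          C₁ ^ q * (2 * C₂) * (N : ℝ) ^ (ε₁ * (q + 1)) := by
        rw [mul_pow, ← Real.rpow_natCast ((N : ℝ) ^ ε₁) q, ← Real.rpow_mul (by positivity)]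
        calc C₁ ^ q * (N : ℝ) ^ (ε₁ * q) * (2 * hsum N)
            ≤ C₁ ^ q * (N : ℝ) ^ (ε₁ * q) * (2 * (C₂ * (N : ℝ) ^ ε₁)) := by
              apply mul_le_mul_of_nonneg_left _ (by positivity)
              have := h2 N hN
              linarith
          _ = C₁ ^ q * (2 * C₂) * ((N : ℝ) ^ (ε₁ * q) * (N : ℝ) ^ ε₁) := by ring
          _ = C₁ ^ q * (2 * C₂) * (N : ℝ) ^ (ε₁ * (q + 1)) := by
              rw [← Real.rpow_add (by positivity)]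
              congr 2
              ring
      calc 1 + (2 * (q : ℝ) + 3) * (q * ((C₁ * (N : ℝ) ^ ε₁) ^ q * (2 * hsum N)))
          ≤ (N : ℝ) ^ (ε₁ * (q + 1)) +
            (2 * (q : ℝ) + 3) * (q * (C₁ ^ q * (2 * C₂) * (N : ℝ) ^ (ε₁ * (q + 1)))) := by
            apply add_le_add h4
            apply mul_le_mul_of_nonneg_left _ (by positivity)
            exact mul_le_mul_of_nonneg_left h5 (by positivity)
        _ = _ := by ring
    calc Kst q N (C₁ * (N : ℝ) ^ ε₁) ^ s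
        ≤ ((1 + (2 * q + 3) * (q * (C₁ ^ q * (2 * C₂)))) * (N : ℝ) ^ (ε₁ * (q + 1))) ^ s := by
          apply pow_le_pow_left₀ _ h3
          exact le_trans zero_le_one (one_le_Kst q N (by positivity))
      _ = (1 + (2 * q + 3) * (q * (C₁ ^ q * (2 * C₂)))) ^ s * (N : ℝ) ^ (ε₁ * (q + 1) * s) := by
          rw [mul_pow, ← Real.rpow_natCast ((N : ℝ) ^ (ε₁ * (q + 1))) s,
            ← Real.rpow_mul (by positivity)]
      _ ≤ _ := by
          apply mul_le_mul_of_nonneg_left _ (by positivity)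
          apply Real.rpow_le_rpow_of_exponent_le hN1
          rw [hε₁, div_mul_eq_mul_div, div_mul_eq_mul_div, div_le_iff₀ (by positivity)]
          have : (0 : ℝ) ≤ s := by positivity
          have : (0 : ℝ) ≤ q := by positivity
          nlinarith [mul_nonneg hε.le (add_nonneg this zero_le_one)]

end Pool.Agent.H30.Vino2
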