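import Mathlib
import Pool.Agent.H30.Vino2.Bounds
import Pool.Agent.H30.Vino.Final

/-!
The non-diagonal solutions of the Vinogradov system with `s = k + t` pairs of variables number
`O(N^(q + t - 1 + t s / q + ε))` for every `q` with `t ≤ q ≤ s`.
-/

set_option autoImplicit false

open Polynomial

namespace Pool.Agent.H30.Vino2

open Pool.Agent.H30.Vino

lemma cast_Zi {q m : ℕ} (y : Fin q → ℕ) (x : Fin m → ℕ) (j : Fin q) :
    ((Zi y x j : ℤ) : ℚ) = Zq x (y j) := by
  unfold Zi Zq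
  push_cast
  rfl

/-- All vectors in the subgroup generated by the shift products of `Sol` are values of
polynomials of degree less than `t`. -/
lemma span_interp {q t s N : ℕ} (y : Fin q → ℕ) :
    ∀ z ∈ Submodule.span ℤ (vecs y (fun _ => 1) (Sol N t s q y fun _ => 1)),
      ∃ p : ℚ[X], p.degree < (t : WithBot ℕ) ∧ ∀ j, (z j : ℚ) = p.eval (y j : ℚ) := by
  intro z hz
  induction hz using Submodule.span_induction with
  | mem z hz =>
    obtain ⟨x, hx, rfl⟩ := hz
    obtain ⟨-, -, p, hp, hp'⟩ := mem_Sol.1 hx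
    refine ⟨p, hp, fun j => ?_⟩
    have := hp' j
    rw [one_mul] at this
    simp only [one_mul]
    rw [cast_Zi, this]
  | zero => exact ⟨0, by simp, fun j => by simp⟩
  | add z z' _ _ h1 h2 =>
    obtain ⟨p, hp, hp'⟩ := h1
    obtain ⟨p', hp1, hp1'⟩ := h2
    refine ⟨p + p', (degree_add_le _ _).trans_lt (max_lt hp hp1), fun j => ?_⟩
    rw [Pi.add_apply, eval_add, ← hp' j, ← hp1' j]
    push_cast
    rfl
  | smul a z _ h1 =>
    obtain ⟨p, hp, hp'⟩ := h1
    refine ⟨(a : ℚ) • p, (degree_smul_le _ _).trans_lt hp, fun j => ?_⟩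
    rw [Pi.smul_apply, eval_smul, ← hp' j, smul_eq_mul, smul_eq_mul]
    push_cast
    rfl

lemma rkS_Sol_le {q t s N : ℕ} (y : Fin q → ℕ) :
    rkS (vecs y (fun _ => 1) (Sol N t s q y fun _ => 1)) ≤ t := by
  unfold rkS
  set ev : degreeLT ℚ t →ₗ[ℚ] (Fin q → ℚ) :=
    (LinearMap.pi fun j => (leval (y j : ℚ))).comp (degreeLT ℚ t).subtype with hev
  have h1 : Submodule.span ℚ (castv '' vecs y (fun _ => 1) (Sol N t s q y fun _ => 1)) ≤
      LinearMap.range ev := by
    rw [Submodule.span_le]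
    rintro _ ⟨z, hz, rfl⟩
    obtain ⟨p, hp, hp'⟩ := span_interp y z (Submodule.subset_span hz)
    refine ⟨⟨p, mem_degreeLT.2 hp⟩, ?_⟩
    funext j
    rw [hev]
    simp only [LinearMap.coe_comp, Submodule.coe_subtype, Function.comp_apply, LinearMap.pi_apply]
    rw [leval_apply]
    exact (hp' j).symm
  refine (Submodule.finrank_mono h1).trans ?_
  refine (LinearMap.finrank_range_le ev).trans ?_
  rw [(degreeLTEquiv ℚ t).finrank_eq]
  simp

lemma cnt_Sol_le {q t s N R : ℕ} (htq : t ≤ q) (y : Fin q → ℕ) (hy : Function.Injective y) :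
    cnt (Submodule.span ℤ (vecs y (fun _ => 1) (Sol N t s q y fun _ => 1))) R ≤
      (2 * R + 1) ^ t := by
  apply cnt_le_of_proj _ (Fin.castLE htq)
  intro z hz h0
  obtain ⟨p, hp, hp'⟩ := span_interp y z hz
  have hp0 : p = 0 := by
    refine Polynomial.eq_zero_of_degree_lt_of_eval_index_eq_zero
      (v := fun l : Fin t => (y (Fin.castLE htq l) : ℚ)) (Finset.univ : Finset (Fin t)) ?_ ?_ ?_
    · intro l _ l' _ hll
      simp only [Nat.cast_inj] at hll
      exact Fin.castLE_injective htq (hy hll)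
    · rw [Finset.card_univ, Fintype.card_fin]; exact hp
    · intro l _
      rw [← hp', h0 l]
      simp
  funext j
  have := hp' j
  rw [hp0, eval_zero] at this
  exact_mod_cast this

/-- The bound for the sets `Sol`. -/
theorem card_Sol_bound (q t s : ℕ) (ht : 1 ≤ t) (htq : t ≤ q) (ε : ℝ) (hε : 0 < ε) :
    ∃ C : ℝ, 0 < C ∧ ∀ N : ℕ, 1 ≤ N → ∀ y : Fin q → ℕ, Function.Injective y →
      (∀ j, y j ∈ Finset.Icc 1 N) →
      ((Sol N t s q y fun _ => 1).card : ℝ) ≤
        C * (N : ℝ) ^ ((t : ℝ) - 1 + t * s / q + ε) := by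
  have hq : 0 < q := by omega
  have hq' : (0 : ℝ) < q := by exact_mod_cast hq
  obtain ⟨C, hC, hK⟩ := Kst_bound q s ε hε
  refine ⟨C * 3 ^ ((t : ℝ) / q), by positivity, ?_⟩
  intro N hN y hy hyN
  have hN1 : (1 : ℝ) ≤ N := by exact_mod_cast hN
  have hN0 : (0 : ℝ) < N := by linarith
  obtain ⟨D, hD0, hD, hKs⟩ := hK N hN
  have h1 := main_count hq hN (R := N ^ s) hy hyN hD0 hD s (fun _ => 1) (fun _ => one_ne_zero)
    (fun j => by simp) (Sol N t s q y fun _ => 1) (fun x hx => (mem_Sol.1 hx).1)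
    (fun x hx i j => (Zq_ne_zero_iff _ _).1 ((mem_Sol.1 hx).2.1 j) i)
  have h2 : (N : ℝ) ^ rkS (vecs y (fun _ => 1) (Sol N t s q y fun _ => 1)) ≤ (N : ℝ) ^ t :=
    pow_le_pow_right₀ hN1 (rkS_Sol_le y)
  have h3 : rt (N ^ s) (vecs y (fun _ => 1) (Sol N t s q y fun _ => 1)) ≤
      3 ^ ((t : ℝ) / q) * (N : ℝ) ^ ((t : ℝ) * s / q) := by
    unfold rt
    have h4 : (cnt (Submodule.span ℤ (vecs y (fun _ => 1) (Sol N t s q y fun _ => 1))) (N ^ s) : ℝ)
        ≤ ((3 : ℝ) * (N : ℝ) ^ s) ^ t := by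
      have h5 := cnt_Sol_le (N := N) (s := s) (R := N ^ s) htq y hy
      have h6 : (2 * N ^ s + 1) ^ t ≤ (3 * N ^ s) ^ t := by
        apply Nat.pow_le_pow_left
        have : 1 ≤ N ^ s := Nat.one_le_pow _ _ hN
        omega
      have h7 := h5.trans h6
      exact_mod_cast h7
    calc (cnt (Submodule.span ℤ (vecs y (fun _ => 1) (Sol N t s q y fun _ => 1)))
          (N ^ s) : ℝ) ^ ((q : ℝ)⁻¹)
        ≤ (((3 : ℝ) * (N : ℝ) ^ s) ^ t) ^ ((q : ℝ)⁻¹) :=
          Real.rpow_le_rpow (by positivity) h4 (by positivity)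
      _ = 3 ^ ((t : ℝ) / q) * (N : ℝ) ^ ((t : ℝ) * s / q) := by
          rw [← Real.rpow_natCast ((3 : ℝ) * (N : ℝ) ^ s) t, ← Real.rpow_mul (by positivity),
            Real.mul_rpow (by positivity) (by positivity), ← Real.rpow_natCast (N : ℝ) s,
            ← Real.rpow_mul (by positivity)]
          congr 2
          field_simp
  have h8 : (N : ℝ) * ((Sol N t s q y fun _ => 1).card : ℝ) ≤
      N * (C * 3 ^ ((t : ℝ) / q) * (N : ℝ) ^ ((t : ℝ) - 1 + t * s / q + ε)) := by
    calc (N : ℝ) * ((Sol N t s q y fun _ => 1).card : ℝ)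
        ≤ Kst q N D ^ s * (N : ℝ) ^ rkS (vecs y (fun _ => 1) (Sol N t s q y fun _ => 1)) *
          rt (N ^ s) (vecs y (fun _ => 1) (Sol N t s q y fun _ => 1)) := h1
      _ ≤ (C * (N : ℝ) ^ ε) * (N : ℝ) ^ t *
          (3 ^ ((t : ℝ) / q) * (N : ℝ) ^ ((t : ℝ) * s / q)) := by
          apply mul_le_mul _ h3 (rt_nonneg _ _) (by positivity)
          exact mul_le_mul hKs h2 (by positivity) (by positivity)
      _ = C * 3 ^ ((t : ℝ) / q) * ((N : ℝ) ^ ε * (N : ℝ) ^ (t : ℝ) *
          (N : ℝ) ^ ((t : ℝ) * s / q)) := by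
          rw [Real.rpow_natCast]
          ring
      _ = C * 3 ^ ((t : ℝ) / q) * ((N : ℝ) ^ (1 : ℝ) *
          (N : ℝ) ^ ((t : ℝ) - 1 + t * s / q + ε)) := by
          rw [← Real.rpow_add hN0, ← Real.rpow_add hN0, ← Real.rpow_add hN0]
          congr 2
          ring
      _ = _ := by
          rw [Real.rpow_one]
          ring
  exact le_of_mul_le_mul_left h8 hN0

theorem card_many' (s k t q N : ℕ) (htq : t ≤ q) (hsk : s - k ≤ t)
    (M : ℝ) (hM0 : 0 ≤ M) (hM : ∀ y : Fin q → ℕ, Function.Injective y →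
      (∀ l, y l ∈ Finset.Icc 1 N) → ((Sol N t s q y fun _ => 1).card : ℝ) ≤ M) :
    (((nonDiag s k N).filter fun p => q + t ≤ (Finset.univ.image p.2).card + 1).card : ℝ) ≤
      (N : ℝ) ^ q * (s ^ s * M) := by
  classical
  set H : Finset (Fin q → ℕ) := (Fintype.piFinset fun _ : Fin q => Finset.Icc 1 N).filter
    Function.Injective with hH
  set Fib : (Fin q → ℕ) → (Fin s → ℕ) → Finset (Fin s → ℕ) := fun η x =>
    (Fintype.piFinset fun _ : Fin s => Finset.Icc 1 N).filter fun y =>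
      (Pp x - Pp y).degree < ((t : ℕ) : WithBot ℕ) ∧ ∀ l, (Pp y).eval (η l : ℚ) = 0 with hFib
  have hFibcard : ∀ η ∈ H, ∀ x, (Fib η x).card ≤ s ^ s := by
    intro η hη x
    apply card_values_le
    intro z hz z' hz'
    obtain ⟨-, hz1, hz2⟩ := Finset.mem_filter.1 hz
    obtain ⟨-, hz1', hz2'⟩ := Finset.mem_filter.1 hz'
    have hinj := (Finset.mem_filter.1 hη).2
    have htr : ((t : ℕ) : WithBot ℕ) ≤ ((Finset.univ : Finset (Fin q)).card : WithBot ℕ) := by
      rw [Finset.card_univ, Fintype.card_fin]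
      exact_mod_cast htq
    have h1 : Pp x - Pp z = Pp x - Pp z' := by
      refine Polynomial.eq_of_degrees_lt_of_eval_index_eq (v := fun l => (η l : ℚ))
        (Finset.univ : Finset (Fin q)) ?_ (hz1.trans_le htr) (hz1'.trans_le htr) ?_
      · intro l _ l' _ hll
        simp only [Nat.cast_inj] at hll
        exact hinj hll
      · intro l _
        rw [eval_sub, eval_sub, hz2, hz2']
    exact sub_right_injective h1
  have hsub : ((nonDiag s k N).filter fun p => q + t ≤ (Finset.univ.image p.2).card + 1) ⊆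
      H.biUnion fun η => (Sol N t s q η fun _ => 1).biUnion fun x =>
        (Fib η x).image fun y => (x, y) := by
    rintro ⟨x, y⟩ hp
    obtain ⟨hp1, hp2⟩ := Finset.mem_filter.1 hp
    obtain ⟨⟨hx, hy⟩, hsame, hnd⟩ := mem_nonDiag.1 hp1
    simp only at hx hy hsame hnd hp2
    have hdeg : (Pp x - Pp y).degree < ((t : ℕ) : WithBot ℕ) :=
      (degree_sub_lt k x y hsame).trans_le (by exact_mod_cast hsk)
    have hne : Pp x ≠ Pp y := fun h => hnd (exists_perm_of_Pp_eq x y h)
    obtain ⟨η, hη1, hη2, hη3⟩ := exists_eta t q x y hdeg hne hp2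
    have hη4 : ∀ l, (Pp y).eval (η l : ℚ) = 0 := fun l => (Pp_eval_eq_zero _ _).2 (hη2 l)
    rw [Finset.mem_biUnion]
    refine ⟨η, ?_, ?_⟩
    · rw [hH, Finset.mem_filter, Fintype.mem_piFinset]
      refine ⟨fun l => ?_, hη1⟩
      obtain ⟨i, hi⟩ := hη2 l
      rw [← hi]; exact hy i
    · rw [Finset.mem_biUnion]
      refine ⟨x, ?_, ?_⟩
      · rw [mem_Sol]
        refine ⟨hx, ?_, C ((-1) ^ s) * (Pp x - Pp y), ?_, ?_⟩
        · intro l
          rw [Zq_eq]
          exact mul_ne_zero (pow_ne_zero _ (by norm_num)) (hη3 l)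
        · rw [degree_C_mul (pow_ne_zero _ (by norm_num))]
          exact hdeg
        · intro l
          rw [one_mul, Zq_eq, eval_mul, eval_C, eval_sub, hη4, sub_zero]
      · rw [Finset.mem_image]
        refine ⟨y, ?_, rfl⟩
        rw [hFib, Finset.mem_filter, Fintype.mem_piFinset]
        exact ⟨hy, hdeg, hη4⟩
  have hcard : (((nonDiag s k N).filter fun p =>
      q + t ≤ (Finset.univ.image p.2).card + 1).card : ℝ) ≤
      ∑ η ∈ H, ((Sol N t s q η fun _ => 1).card : ℝ) * s ^ s := by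
    have : ((nonDiag s k N).filter fun p =>
        q + t ≤ (Finset.univ.image p.2).card + 1).card ≤
        ∑ η ∈ H, (Sol N t s q η fun _ => 1).card * s ^ s := by
      refine (Finset.card_le_card hsub).trans (Finset.card_biUnion_le.trans ?_)
      apply Finset.sum_le_sum
      intro η hη
      apply Finset.card_biUnion_le_card_mul
      intro x _
      exact Finset.card_image_le.trans (hFibcard η hη x)
    exact_mod_cast this
  have hHcard : (H.card : ℝ) ≤ (N : ℝ) ^ q := by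
    have : H.card ≤ N ^ q := by
      refine (Finset.card_filter_le _ _).trans ?_
      simp [Fintype.card_piFinset]
    exact_mod_cast this
  calc (((nonDiag s k N).filter fun p =>
          q + t ≤ (Finset.univ.image p.2).card + 1).card : ℝ)
        ≤ ∑ η ∈ H, ((Sol N t s q η fun _ => 1).card : ℝ) * s ^ s := hcard
      _ ≤ ∑ η ∈ H, M * s ^ s := by
          apply Finset.sum_le_sum
          intro η hη
          obtain ⟨h1, h2⟩ := Finset.mem_filter.1 hη
          exact mul_le_mul_of_nonneg_right (hM η h2 (Fintype.mem_piFinset.1 h1)) (by positivity)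
      _ = H.card * (M * s ^ s) := by rw [Finset.sum_const, nsmul_eq_mul]
      _ ≤ (N : ℝ) ^ q * (M * s ^ s) := mul_le_mul_of_nonneg_right hHcard (by positivity)
      _ = (N : ℝ) ^ q * (s ^ s * M) := by ring

/-- The number of non-diagonal solutions is `O(N^(q + t - 1 + t s / q + ε))`, `s = k + t`. -/
theorem card_nonDiag' (k t q : ℕ) (ht : 1 ≤ t) (htq : t ≤ q) (hqs : q ≤ k + t) (ε : ℝ)
    (hε : 0 < ε) :
    ∃ C : ℝ, 0 < C ∧ ∀ N : ℕ, 1 ≤ N → ((nonDiag (k + t) k N).card : ℝ) ≤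
      C * (N : ℝ) ^ ((q : ℝ) + t - 1 + t * (k + t) / q + ε) := by
  classical
  obtain ⟨C₁, hC₁, h1⟩ := card_Sol_bound q t (k + t) ht htq ε hε
  have hq0 : 0 < q := by omega
  have hq' : (0 : ℝ) < q := by exact_mod_cast hq0
  refine ⟨((k + t : ℕ) : ℝ) ^ (k + t) * C₁ + (q + t - 2 : ℕ) ^ (k + t) * (k : ℝ) ^ k + 1,
    by positivity, ?_⟩
  intro N hN
  have hN1 : (1 : ℝ) ≤ N := by exact_mod_cast hN
  have hN0 : (0 : ℝ) < N := by linarith
  -- many distinct values
  have h2 := card_many' (k + t) k t q N htq (by omega)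
    (C₁ * (N : ℝ) ^ ((t : ℝ) - 1 + t * (k + t : ℕ) / q + ε)) (by positivity) (h1 N hN)
  have h3 : (((nonDiag (k + t) k N).filter fun p =>
      q + t ≤ (Finset.univ.image p.2).card + 1).card : ℝ) ≤
      ((k + t : ℕ) : ℝ) ^ (k + t) * C₁ * (N : ℝ) ^ ((q : ℝ) + t - 1 + t * (k + t) / q + ε) := by
    refine h2.trans (le_of_eq ?_)
    have h4 : (N : ℝ) ^ ((q : ℝ) + t - 1 + t * (k + t) / q + ε) =
        (N : ℝ) ^ q * (N : ℝ) ^ ((t : ℝ) - 1 + t * (k + t : ℕ) / q + ε) := by
      rw [← Real.rpow_natCast (N : ℝ) q, ← Real.rpow_add hN0]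
      congr 1
      push_cast
      ring
    rw [h4]
    ring
  -- few distinct values
  set Y := (Fintype.piFinset fun _ : Fin (k + t) => Finset.Icc 1 N).filter fun y =>
      (Finset.univ.image y).card ≤ q + t - 2 with hY
  have hsub : ((nonDiag (k + t) k N).filter fun p =>
      ¬ q + t ≤ (Finset.univ.image p.2).card + 1) ⊆
      Y.biUnion fun y => ((Fintype.piFinset fun _ : Fin (k + t) => Finset.Icc 1 N).filter fun x =>
      ∀ j : ℕ, 1 ≤ j → j ≤ k → ∑ i, x i ^ j = ∑ i, y i ^ j).image fun x => (x, y) := by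
    rintro ⟨x, y⟩ hp
    obtain ⟨hp1, hp2⟩ := Finset.mem_filter.1 hp
    obtain ⟨⟨hx, hy⟩, hsame, hnd⟩ := mem_nonDiag.1 hp1
    simp only at hx hy hsame hnd hp2
    rw [Finset.mem_biUnion]
    refine ⟨y, ?_, ?_⟩
    · rw [hY, Finset.mem_filter, Fintype.mem_piFinset]
      exact ⟨hy, by omega⟩
    · rw [Finset.mem_image]
      refine ⟨x, ?_, rfl⟩
      rw [Finset.mem_filter, Fintype.mem_piFinset]
      exact ⟨hx, hsame⟩
  have hcard : ((nonDiag (k + t) k N).filter fun p =>
      ¬ q + t ≤ (Finset.univ.image p.2).card + 1).card ≤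
      (q + t - 2) ^ (k + t) * N ^ (q + t - 2) * (N ^ t * k ^ k) := by
    refine (Finset.card_le_card hsub).trans ?_
    refine (Finset.card_biUnion_le_card_mul _ _ (N ^ t * k ^ k)
      (fun y _ => Finset.card_image_le.trans (card_fix k t N y))).trans ?_
    exact Nat.mul_le_mul_right _ (card_few_values (k + t) (q + t - 2) N hN)
  have h5 : (((nonDiag (k + t) k N).filter fun p =>
      ¬ q + t ≤ (Finset.univ.image p.2).card + 1).card : ℝ) ≤
      (q + t - 2 : ℕ) ^ (k + t) * (k : ℝ) ^ k *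
        (N : ℝ) ^ ((q : ℝ) + t - 1 + t * (k + t) / q + ε) := by
    calc (((nonDiag (k + t) k N).filter fun p =>
          ¬ q + t ≤ (Finset.univ.image p.2).card + 1).card : ℝ)
        ≤ (((q + t - 2) ^ (k + t) * N ^ (q + t - 2) * (N ^ t * k ^ k) : ℕ) : ℝ) := by
          exact_mod_cast hcard
      _ = (q + t - 2 : ℕ) ^ (k + t) * (k : ℝ) ^ k * (N : ℝ) ^ ((q + t - 2 + t : ℕ) : ℝ) := by
          rw [Real.rpow_natCast]
          push_cast
          ring
      _ ≤ _ := by
          apply mul_le_mul_of_nonneg_left _ (by positivity)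
          apply Real.rpow_le_rpow_of_exponent_le hN1
          have h6 : (t : ℝ) ≤ t * (k + t) / q := by
            rw [le_div_iff₀ hq']
            have : (q : ℝ) ≤ k + t := by exact_mod_cast hqs
            exact mul_le_mul_of_nonneg_left this (by positivity)
          have h7 : ((q + t - 2 + t : ℕ) : ℝ) ≤ (q : ℝ) + t - 1 + t := by
            have h8 : q + t - 2 + t + 1 ≤ q + t + t := by omega
            have h9 : ((q + t - 2 + t + 1 : ℕ) : ℝ) ≤ ((q + t + t : ℕ) : ℝ) := by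
              exact_mod_cast h8
            push_cast at h9 ⊢
            linarith
          linarith
  have h6 := Finset.card_filter_add_card_filter_not (s := nonDiag (k + t) k N)
    (fun p => q + t ≤ (Finset.univ.image p.2).card + 1)
  have h7 : ((nonDiag (k + t) k N).card : ℝ) =
      (((nonDiag (k + t) k N).filter fun p =>
      q + t ≤ (Finset.univ.image p.2).card + 1).card : ℝ) +
      (((nonDiag (k + t) k N).filter fun p =>
      ¬ q + t ≤ (Finset.univ.image p.2).card + 1).card : ℝ) := by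
    rw [← h6]
    push_cast
    ring
  rw [h7]
  have h8 : 0 ≤ (N : ℝ) ^ ((q : ℝ) + t - 1 + t * (k + t) / q + ε) := by positivity
  have h9 : (((k + t : ℕ) : ℝ) ^ (k + t) * C₁ + (q + t - 2 : ℕ) ^ (k + t) * (k : ℝ) ^ k + 1) *
      (N : ℝ) ^ ((q : ℝ) + t - 1 + t * (k + t) / q + ε) =
      ((k + t : ℕ) : ℝ) ^ (k + t) * C₁ * (N : ℝ) ^ ((q : ℝ) + t - 1 + t * (k + t) / q + ε) +
      (q + t - 2 : ℕ) ^ (k + t) * (k : ℝ) ^ k *
        (N : ℝ) ^ ((q : ℝ) + t - 1 + t * (k + t) / q + ε) +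
      (N : ℝ) ^ ((q : ℝ) + t - 1 + t * (k + t) / q + ε) := by ring
  rw [h9]
  linarith

end Pool.Agent.H30.Vino2
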